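import Pool.Agent.Helper90.MZ.StmtsA

/-!
# Module ATMB: atomic models
-/

set_option autoImplicit false

namespace Pool.Agent.Helper90.MZ

open Pool.Agent.Helper90.TS

theorem st_ATMB (hI : ST_ISLB) (hM : ST_MDLB) : ST_ATMB := by
  intro V G _ _ X A N
  -- (6)
  have key6 : ∀ A N : Set V, Atm X A N → ∀ (ι : Type) [Finite ι] (c : ι → V),
      Set.range c ⊆ N → Isl X A c := by
    intro A N h ι _ c hc
    have hA : A.Countable := h.1.1.mono h.2.1
    obtain ⟨n, ⟨e⟩⟩ := Finite.exists_equiv_fin ι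
    have h1 : Isl X A (c ∘ e.symm) := h.2.2 n (c ∘ e.symm)
      ((Set.range_comp_subset_range _ _).trans hc)
    refine (hI V G X A hA (Fin n) (c ∘ e.symm)).2.1 ι c h1 ?_
    rintro _ ⟨i, rfl⟩
    exact Or.inr ⟨e i, by simp⟩
  refine ⟨?_, ?_, ?_, ?_, ?_, key6 A N⟩
  · intro h F hFN hF
    have hA : A.Countable := h.1.1.mono h.2.1
    obtain ⟨m, f, -, rfl⟩ := hF.fin_param
    refine ⟨h.1, Set.union_subset h.2.1 hFN, fun n c hc => ?_⟩
    have h1 : Isl X A (Sum.elim f c) := key6 A N h _ _ (by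
      rw [Set.Sum.elim_range]
      exact Set.union_subset hFN hc)
    exact (((hI V G X A hA (Fin m) f).1 (Fin n) c).1 h1).2
  · intro ι _ f hf h
    have hAN : A ⊆ N := Set.subset_union_left.trans h.2.1
    have hA : A.Countable := h.1.1.mono hAN
    refine ⟨h.1, hAN, fun n c hc => ?_⟩
    have h1 := h.2.2 n c hc
    have h2 : Isl X A (Sum.elim f c) := ((hI V G X A hA ι f).1 (Fin n) c).2 ⟨hf, h1⟩
    refine (hI V G X A hA _ (Sum.elim f c)).2.1 (Fin n) c h2 ?_
    rw [Set.Sum.elim_range]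
    exact Set.subset_union_right.trans Set.subset_union_right
  · intro g h
    have hA : A.Countable := h.1.1.mono h.2.1
    refine ⟨(hM V G X).2.2.2.2.1 N g h.1, tr_mono g h.2.1, fun n c hc => ?_⟩
    have h1 : Set.range (g⁻¹ • c) ⊆ N := by
      rintro _ ⟨i, rfl⟩
      exact mem_tr.1 (hc ⟨i, rfl⟩)
    have h2 := h.2.2 n (g⁻¹ • c) h1
    have h3 := ((hI V G X A hA (Fin n) (g⁻¹ • c)).2.2.1 g).2 h2
    rwa [smul_inv_smul] at h3
  · intro K hK hmono
    have hmono' : Monotone K := monotone_nat_of_le_succ hmono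
    refine ⟨(hM V G X).2.2.2.2.2.1 K (fun n => (hK n).1) hmono,
      (hK 0).2.1.trans (Set.subset_iUnion K 0), fun n c hc => ?_⟩
    have h1 : ∀ i : Fin n, ∃ m, c i ∈ K m := fun i => Set.mem_iUnion.1 (hc ⟨i, rfl⟩)
    choose m hm using h1
    have h2 : Set.range c ⊆ K (Finset.univ.sup m) := by
      rintro _ ⟨i, rfl⟩
      exact hmono' (Finset.le_sup (Finset.mem_univ i)) (hm i)
    exact (hK _).2.2 n c h2
  · intro Y N' h hAN hcN
    have hYN : N ∪ Y ⊆ N' := h.2.1
    have hNY : (N ∪ Y).Countable := h.1.1.mono hYN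
    have hAY : A ∪ Y ⊆ N ∪ Y := Set.union_subset_union_left Y hAN
    have hAYc : (A ∪ Y).Countable := hNY.mono hAY
    refine ⟨h.1, hAY.trans hYN, fun n c hc => ?_⟩
    have h1 := h.2.2 n c hc
    obtain ⟨F, hF, hFf, D, hD, hcD, hDe, -⟩ := (hI V G X (N ∪ Y) hNY (Fin n) c).2.2.2.1 h1
    obtain ⟨m, f, -, hf⟩ := (hFf.subset (Set.inter_subset_left (t := N))).fin_param
    have hfN : Set.range f ⊆ N := by
      rw [hf]
      exact Set.inter_subset_right
    have h2 : Isl X (A ∪ Y) f := hcN m f hfN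
    have hsub : A ∪ Y ∪ Set.range f ⊆ N ∪ Y :=
      Set.union_subset hAY (hfN.trans Set.subset_union_left)
    have h3 : Isl X (A ∪ Y ∪ Set.range f) c := by
      refine ⟨D, ov_mono X ?_ hD, hcD, fun x hx => eqv_mono hsub (hDe x hx)⟩
      intro v hv
      rcases hF hv with h4 | h4
      · right
        rw [hf]
        exact ⟨hv, h4⟩
      · exact Or.inl (Or.inr h4)
    have h4 : Isl X (A ∪ Y) (Sum.elim f c) :=
      ((hI V G X (A ∪ Y) hAYc (Fin m) f).1 (Fin n) c).2 ⟨h2, h3⟩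
    refine (hI V G X (A ∪ Y) hAYc _ (Sum.elim f c)).2.1 (Fin n) c h4 ?_
    rw [Set.Sum.elim_range]
    exact Set.subset_union_right.trans Set.subset_union_right

end Pool.Agent.Helper90.MZ
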