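import Pool.Agent.Helper90.MZ.StmtsA

/-!
# Module OFN: new points of non-orthogonal sets
-/

set_option autoImplicit false

namespace Pool.Agent.Helper90.MZ

open Pool.Agent.Helper90.TS

section

variable {V G : Type} [Group G] [MulAction G V] {X : Ctx V G}

/-- invariance of the rank condition -/
private theorem ofn_inv {A : Set V} {m : ℕ} {D0 : Set (Fin 1 → V)}
    {F : Set ((Fin m ⊕ Fin 1) ⊕ Fin 1 → V)} {α : Ordinal.{0}} (hD0 : X.Ov A D0)
    (hF : X.Ov (∅ : Set V) F) {g : G} (hg : g ∈ Fx G A) (v : Fin m ⊕ Fin 1 → V) :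
    X.Rge α (D0 ∩ {w | Sum.elim (g • v) w ∈ F}) ↔ X.Rge α (D0 ∩ {w | Sum.elim v w ∈ F}) := by
  have hF' : ∀ k : G, ∀ x, k • x ∈ F ↔ x ∈ F := by
    intro k x
    refine inv_iff hF.2 ?_ x
    rw [fx_empty]
    trivial
  rw [← (a_rbas V G X (Fin 1)).2.2.1 α (D0 ∩ {w | Sum.elim (g • v) w ∈ F}) g]
  have e : {x : Fin 1 → V | g • x ∈ D0 ∩ {w | Sum.elim (g • v) w ∈ F}} =
      D0 ∩ {w | Sum.elim v w ∈ F} := by
    ext x
    constructor
    · rintro ⟨h1, h2⟩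
      refine ⟨(inv_iff hD0.2 hg x).1 h1, ?_⟩
      have h3 : Sum.elim (g • v) (g • x) ∈ F := h2
      rw [← smul_elim] at h3
      exact (hF' g _).1 h3
    · rintro ⟨h1, h2⟩
      refine ⟨(inv_iff hD0.2 hg x).2 h1, ?_⟩
      change Sum.elim (g • v) (g • x) ∈ F
      rw [← smul_elim]
      exact (hF' g _).2 h2
  rw [e]

private theorem ofn_Z {A : Set V} {m : ℕ} {E D0 : Set (Fin 1 → V)}
    {F : Set ((Fin m ⊕ Fin 1) ⊕ Fin 1 → V)} {α : Ordinal.{0}} (hE : X.Ov A E)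
    (hD0 : X.Ov A D0) (hr : ¬ X.Rge (Order.succ α) D0) (hF : X.Ov (∅ : Set V) F)
    (y : Fin 1 → V) : X.Ov (A ∪ Set.range y) {v : Fin m ⊕ Fin 1 → V |
      v ∘ Sum.inr ∈ E ∧ Sum.elim v y ∈ F ∧ ¬ X.Rge α (D0 ∩ {w | Sum.elim v w ∈ F})} := by
  have hR : X.Ov A {v : Fin m ⊕ Fin 1 → V | X.Rge α (D0 ∩ {w | Sum.elim v w ∈ F})} := by
    refine ⟨a_def V G X (Fin m ⊕ Fin 1) (Fin 1) α D0 F hD0.1 hr hF.1, ?_⟩
    intro g hg v hv
    exact (ofn_inv hD0 hF hg v).2 hv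
  have h1 : X.Ov (A ∪ Set.range y) {v : Fin m ⊕ Fin 1 → V | Sum.elim v y ∈ F} :=
    ov_secr (ov_mono X (Set.empty_subset A) hF) y
  have h2 := ov_diff h1 (ov_mono X (Set.subset_union_left (t := Set.range y)) hR)
  have h3 := ov_sub (ov_mono X (Set.subset_union_left (t := Set.range y)) hE) h2
    (Sum.inr : Fin 1 → Fin m ⊕ Fin 1)
  have e : {v : Fin m ⊕ Fin 1 → V |
      v ∘ Sum.inr ∈ E ∧ Sum.elim v y ∈ F ∧ ¬ X.Rge α (D0 ∩ {w | Sum.elim v w ∈ F})} =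
      {x | x ∈ {v : Fin m ⊕ Fin 1 → V | Sum.elim v y ∈ F} \
        {v : Fin m ⊕ Fin 1 → V | X.Rge α (D0 ∩ {w | Sum.elim v w ∈ F})} ∧
        x ∘ Sum.inr ∈ E} := by
    ext v
    constructor
    · rintro ⟨a, b, c⟩
      exact ⟨⟨b, c⟩, a⟩
    · rintro ⟨⟨b, c⟩, a⟩
      exact ⟨a, b, c⟩
  rw [e]
  exact h3

/-- a point which forks -/
private theorem ofn_fork (hR : ST_RLB) {p : Ty V} (hp : SR X p) {N : Set V} {m : ℕ}
    {D0 : Set (Fin 1 → V)} {F : Set ((Fin m ⊕ Fin 1) ⊕ Fin 1 → V)} (hN : N.Countable)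
    (hpN : p.A ⊆ N) (hD0 : X.Ov p.A D0) (hz : p.z ∈ D0) (hF : X.Ov (∅ : Set V) F)
    {u : Fin m → V} (hu : Set.range u ⊆ N) {y x : Fin 1 → V} (hy : Rl X p N y)
    (h1 : Sum.elim (Sum.elim u x) y ∈ F)
    (h2 : ¬ X.Rge (X.rk p.A p.z) (D0 ∩ {w | Sum.elim (Sum.elim u x) w ∈ F})) :
    ¬ SI X N (Set.range y) (Set.range x) := by
  intro hs
  have hpu : p.A ∪ N = N := Set.union_eq_self_of_subset_left hpN
  have r1 : X.rk N y = X.rk p.A p.z := by
    have := ((hR V G X p hp N hN).2.2.2.2.2.2.2.2 y hy).1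
    rwa [hpu] at this
  have r2 : X.rk (N ∪ Set.range x) y = X.rk N y :=
    (rk_si hN (Set.countable_range x)).2 hs
  have hyD : y ∈ D0 := by
    obtain ⟨g, hg, hgy⟩ := hy.1
    rw [← hgy]
    exact hD0.2 g hg _ hz
  have hov : X.Ov (N ∪ Set.range x) (D0 ∩ {w | Sum.elim (Sum.elim u x) w ∈ F}) := by
    refine ov_inter (ov_mono X (hpN.trans Set.subset_union_left) hD0) ?_
    refine ov_sec' (ov_mono X (Set.empty_subset _) hF) ?_
    rw [Set.Sum.elim_range]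
    exact Set.union_subset (hu.trans Set.subset_union_left) Set.subset_union_right
  have := (a_rkb V G X (Fin 1) y).2.2.1 (N ∪ Set.range x) _ hov ⟨hyD, h1⟩
  rw [r2, r1] at this
  exact h2 this

end

theorem st_OFN (hC : ST_COH) (hR : ST_RLB) (hM : ST_MDLB) : ST_OFN := by
  intro V G _ _ X p M N N' E y hp hMN hN hpN hE hnO hy hN' hNN' hyN'
  have hnO' : ∃ B : Set V, B.Countable ∧ M ⊆ B ∧ ∃ b ∈ E, ∃ y1, Rl X p B y1 ∧
      ¬ SI X (p.A ∪ B) (Set.range y1) (Set.range b) := by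
    by_contra hcon
    apply hnO
    intro B hB hMB b hb y1 hy1
    by_contra h
    exact hcon ⟨B, hB, hMB, b, hb, y1, hy1, h⟩
  obtain ⟨B, hB, hMB, b, hb, y1, hy1, hns⟩ := hnO'
  have hNc : N.Countable := hN.1
  have hMc : M.Countable := hNc.mono hMN
  have hpc : p.A.Countable := hp.cnt
  have hbc : (Set.range b).Countable := Set.countable_range b
  have hy1c : (Set.range y1).Countable := Set.countable_range y1
  set B2 : Set V := p.A ∪ B with hB2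
  have hB2c : B2.Countable := hpc.union hB
  have hMpB : M ∪ p.A ⊆ B2 :=
    Set.union_subset (hMB.trans Set.subset_union_right) Set.subset_union_left
  obtain ⟨g, hg, hgN⟩ := si_ex (X := X) (hMc.union hpc) hNc
    (hB2c.union (hbc.union hy1c))
  obtain ⟨hgM, hgp⟩ := fx_union.1 hg
  set N2 : Set V := tr g N with hN2
  have hN2c : N2.Countable := tr_countable g hNc
  have hN2m : Mdl X N2 := (hM V G X).2.2.2.2.1 N g hN
  have hpN2 : p.A ⊆ N2 := by
    rw [← tr_fx hgp]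
    exact tr_mono g hpN
  have hMN2 : M ⊆ N2 := by
    rw [← tr_fx hgM]
    exact tr_mono g hMN
  -- independence
  have s1 : SI X B2 N2 (Set.range b ∪ Set.range y1) := by
    have := ((si_union (hMc.union hpc) hN2c hB2c (hbc.union hy1c)).1 hgN).2
    rwa [Set.union_eq_self_of_subset_left hMpB] at this
  have s2 : SI X B2 (Set.range b ∪ Set.range y1) N2 :=
    si_symm hB2c hN2c (hbc.union hy1c) s1
  have s3 : SI X B2 (Set.range y1) N2 := si_left Set.subset_union_right s2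
  have hy2 : Rl X p (B ∪ N2) y1 :=
    (hR V G X p hp B hB).2.2.2.1 y1 N2 hN2c hy1 s3
  have hns2 : ¬ SI X (B2 ∪ N2) (Set.range y1) (Set.range b) := by
    intro h
    have := si_trans hB2c hy1c hN2c hbc s3 h
    exact hns (si_right hB2c hy1c (hN2c.union hbc) Set.subset_union_right this)
  have hBN : (B2 ∪ N2).Countable := hB2c.union hN2c
  -- the rank
  obtain ⟨D0, hD0, hzD0, hD0r⟩ := (a_rkb V G X (Fin 1) p.z).1 p.A
  set α : Ordinal.{0} := X.rk p.A p.z with hα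
  have hD0s : ¬ X.Rge (Order.succ α) D0 := by
    rw [hD0r]
    exact not_le.2 (Order.lt_succ α)
  have e1 : p.A ∪ (B ∪ N2) = B2 ∪ N2 := by rw [hB2, Set.union_assoc]
  have r1 : X.rk (B2 ∪ N2) y1 = α := by
    have := ((hR V G X p hp (B ∪ N2) (hB.union hN2c)).2.2.2.2.2.2.2.2 y1 hy2).1
    rwa [e1] at this
  have r2 : X.rk (B2 ∪ N2 ∪ Set.range b) y1 < α := by
    refine lt_of_le_of_ne ?_ ?_
    · rw [← r1]
      exact (a_rkb V G X (Fin 1) y1).2.2.2.1 _ _ Set.subset_union_left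
    · intro h
      apply hns2
      exact (rk_si hBN hbc).1 (by rw [h, r1])
  obtain ⟨Dk, hDk, hyDk, hDkr⟩ := (a_rkb V G X (Fin 1) y1).1 (B2 ∪ N2 ∪ Set.range b)
  have hDkα : ¬ X.Rge α Dk := by
    rw [hDkr]
    exact not_le.2 r2
  obtain ⟨Ek, hEk, hDkE⟩ := a_fsu2 V G X (B2 ∪ N2) hBN (Fin 1) (Fin 1) b Dk hDk
  obtain ⟨m, a, F, ha, hF, hEkF⟩ := st_FSUP V G X (B2 ∪ N2) hBN (Fin 1 ⊕ Fin 1) Ek hEk
  -- reassociation
  set F' : Set ((Fin m ⊕ Fin 1) ⊕ Fin 1 → V) :=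
    {v | v ∘ (Equiv.sumAssoc (Fin m) (Fin 1) (Fin 1)).symm ∈ F} with hF'def
  have hF' : X.Ov (∅ : Set V) F' := ov_equiv hF (Equiv.sumAssoc (Fin m) (Fin 1) (Fin 1)).symm
  have hass : ∀ (u : Fin m → V) (x w : Fin 1 → V), Sum.elim (Sum.elim u x) w ∈ F' ↔
      Sum.elim u (Sum.elim x w) ∈ F := by
    intro u x w
    have : (Sum.elim (Sum.elim u x) w) ∘ (Equiv.sumAssoc (Fin m) (Fin 1) (Fin 1)).symm =
        Sum.elim u (Sum.elim x w) := by
      funext i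
      rcases i with i | i | i <;> rfl
    rw [hF'def, Set.mem_ofPred_eq, this]
  have hDk' : Dk = {w | Sum.elim (Sum.elim a b) w ∈ F'} := by
    rw [hDkE, hEkF]
    ext w
    exact (hass a b w).symm
  -- the definable set `T`
  have hEp : X.Ov (M ∪ p.A) E := ov_mono X Set.subset_union_left hE
  have hDp : X.Ov (M ∪ p.A) D0 := ov_mono X Set.subset_union_right hD0
  have hZ1 := ofn_Z (α := α) hEp hDp hD0s hF' y1
  have hT := ov_ex hZ1
  have haT : a ∈ {x : Fin m → V | ∃ y : Fin 1 → V, Sum.elim x y ∈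
      {v : Fin m ⊕ Fin 1 → V | v ∘ Sum.inr ∈ E ∧ Sum.elim v y1 ∈ F' ∧
        ¬ X.Rge α (D0 ∩ {w | Sum.elim v w ∈ F'})}} := by
    refine ⟨b, hb, ?_, ?_⟩
    · have := hyDk
      rw [hDk'] at this
      exact this
    · intro h
      apply hDkα
      refine (a_rbas V G X (Fin 1)).1 α _ Dk hDk.1 ?_ h
      rw [hDk']
      exact Set.inter_subset_right
  have hN2B : M ∪ p.A ∪ Set.range y1 ⊆ N2 ∪ Set.range y1 :=
    Set.union_subset_union_left _ (Set.union_subset hMN2 hpN2)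
  have s4 : SI X N2 (Set.range y1) (B ∪ N2) := by
    refine si_up hpc hy1c (hB.union hN2c) hy2.2 hpN2 ?_
    exact Set.subset_union_right.trans Set.subset_union_right
  have s5 : SI X N2 (Set.range y1) (B2 ∪ N2) := by
    rw [← e1]
    have e2 : p.A ∪ (B ∪ N2) = B ∪ N2 :=
      Set.union_eq_self_of_subset_left (hpN2.trans Set.subset_union_right)
    rwa [e2]
  obtain ⟨u, ⟨x, hxE, hxF, hxr⟩, huN2⟩ := hC V G X N2 (B2 ∪ N2) (Set.range y1) hN2m hBN hy1c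
    (si_symm hN2c hy1c hBN s5) (Fin m) _ a (ov_mono X hN2B hT) haT ha
  -- transport
  have hyp : Rl X p N (g⁻¹ • y1) := by
    constructor
    · refine eqv_trans hy1.1 ⟨g⁻¹, inv_mem hgp, rfl⟩
    · have t1 : SI X p.A (Set.range y1) N2 :=
        si_right hpc hy1c (hB.union hN2c) Set.subset_union_right hy2.2
      have t2 := (si_tr (X := X) hpc hy1c hN2c g⁻¹).2 t1
      rw [tr_fx (inv_mem hgp), hN2, tr_inv_tr, tr_range] at t2
      exact t2
  obtain ⟨k, hk, hky⟩ := (hR V G X p hp N hNc).2.1 _ _ hyp hy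
  obtain ⟨hkp, hkN⟩ := fx_union.1 hk
  set h : G := k * g⁻¹ with hh
  have hhy : h • y1 = y := by rw [hh, mul_smul, hky]
  have hhM : h ∈ Fx G M := mul_mem (fx_anti hMN hkN) (inv_mem hgM)
  have hhp : h ∈ Fx G p.A := mul_mem hkp (inv_mem hgp)
  have hhMp : h ∈ Fx G (M ∪ p.A) := fx_union.2 ⟨hhM, hhp⟩
  have hhu : Set.range (h • u) ⊆ N := by
    rintro _ ⟨i, rfl⟩
    have h1 : u i ∈ N2 := huN2 ⟨i, rfl⟩
    rw [hN2, mem_tr] at h1
    have h2 : (h • u) i = k • (g⁻¹ • u i) := by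
      rw [hh]
      exact mul_smul _ _ _
    rw [h2, hkN _ h1]
    exact h1
  have hZ2 := ofn_Z (α := α) hEp hDp hD0s hF' y
  have hK := ov_sec' (ov_mono X (B := N') (by
    refine Set.union_subset (Set.union_subset (hMN.trans hNN') (hpN.trans hNN')) hyN') hZ2)
    (a := h • u) (hhu.trans hNN')
  obtain ⟨x', ⟨hx1, hx2, hx3⟩, hx4⟩ := hN'.2 1 _ hK (by
    refine ⟨h • x, ?_, ?_, ?_⟩
    · have e3 : (Sum.elim (h • u) (h • x)) ∘ Sum.inr = h • x := rfl
      rw [e3]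
      exact hE.2 h hhM x hxE
    · have e3 : Sum.elim (Sum.elim (h • u) (h • x)) y = h • Sum.elim (Sum.elim u x) y1 := by
        rw [smul_elim, smul_elim, hhy]
      rw [e3]
      refine (inv_iff hF'.2 ?_ _).2 hxF
      rw [fx_empty]
      trivial
    · intro h5
      apply hxr
      rw [← smul_elim] at h5
      exact (ofn_inv hDp hF' hhMp (Sum.elim u x)).1 h5)
  refine ⟨x', hx1, hx4, ?_⟩
  exact ofn_fork hR hp hNc hpN hD0 hzD0 hF' hhu hy hx2 hx3

end Pool.Agent.Helper90.MZ
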